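import Mathlib

/-!
# Metric measure spaces, the box distance and the Kuratowski topologization
-/

set_option autoImplicit false

namespace Run7.h371.KT

open MeasureTheory Set
open scoped ENNReal NNReal

/-- the interval `[0, 1)` -/
abbrev I : Type := Set.Ico (0 : ℝ) 1

/-- Lebesgue measure on `[0, 1)` -/
noncomputable def leb : Measure I := (volume : Measure ℝ).comap Subtype.val

theorem leb_apply (s : Set I) : leb s = volume ((Subtype.val : I → ℝ) '' s) :=
  comap_subtype_coe_apply measurableSet_Ico volume s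

instance : IsProbabilityMeasure leb := by
  refine ⟨?_⟩
  rw [leb_apply, Set.image_univ, Subtype.range_coe, Real.volume_Ico, sub_zero, ENNReal.ofReal_one]

/-- mm-spaces: complete separable metric spaces with a Borel probability measure -/
structure MM : Type 1 where
  X : Type
  met : MetricSpace X
  complete : CompleteSpace X
  separable : TopologicalSpace.SeparableSpace X
  meas : MeasurableSpace X
  borel : BorelSpace X
  μ : Measure X
  prob : IsProbabilityMeasure μ

attribute [instance] MM.met MM.complete MM.separable MM.meas MM.borel MM.prob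

/-- isomorphisms of mm-spaces: isometries of the supports which map the measures to each other -/
def Iso (X Y : MM) : Prop :=
  ∃ f : X.μ.support ≃ᵢ Y.μ.support,
    (X.μ.comap (Subtype.val : X.μ.support → X.X)).map f =
      Y.μ.comap (Subtype.val : Y.μ.support → Y.X)

theorem Iso.refl (X : MM) : Iso X X :=
  ⟨IsometryEquiv.refl _, by
    have h : ((IsometryEquiv.refl X.μ.support : X.μ.support ≃ᵢ X.μ.support) :
        X.μ.support → X.μ.support) = id := rfl
    rw [h, Measure.map_id]⟩

theorem Iso.symm {X Y : MM} (h : Iso X Y) : Iso Y X := by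
  obtain ⟨f, hf⟩ := h
  refine ⟨f.symm, ?_⟩
  rw [← hf, Measure.map_map f.symm.continuous.measurable f.continuous.measurable]
  have h : (f.symm : Y.μ.support → X.μ.support) ∘ f = id := by
    funext x
    exact f.symm_apply_apply x
  rw [h, Measure.map_id]

theorem Iso.trans {X Y Z : MM} (h : Iso X Y) (h' : Iso Y Z) : Iso X Z := by
  obtain ⟨f, hf⟩ := h
  obtain ⟨g, hg⟩ := h'
  refine ⟨f.trans g, ?_⟩
  rw [← hg, ← hf, Measure.map_map g.continuous.measurable f.continuous.measurable]
  rfl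

instance isoSetoid : Setoid MM where
  r := Iso
  iseqv := ⟨Iso.refl, Iso.symm, Iso.trans⟩

/-- the set of the isomorphism classes of mm-spaces -/
def Cls : Type 1 := Quotient isoSetoid

/-- the parameters of an mm-space: Borel maps from `[0, 1)` which map Lebesgue measure to its measure -/
def IsParam (X : MM) (φ : I → X.X) : Prop := Measurable φ ∧ Measure.map φ leb = X.μ

/-- the numbers `ε` in the definition of the box distance -/
def boxSet (X Y : MM) : Set ℝ≥0 :=
  {ε | ∃ (φ : I → X.X) (ψ : I → Y.X), IsParam X φ ∧ IsParam Y ψ ∧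
    ∃ J : Set I, MeasurableSet J ∧ 1 - (ε : ℝ≥0∞) ≤ leb J ∧
      ∀ s ∈ J, ∀ t ∈ J, |dist (φ s) (φ t) - dist (ψ s) (ψ t)| ≤ ε}

/-- the box distance of two mm-spaces (the set `boxSet X Y` is not empty, as mm-spaces have parameters,
and so this is a number; it would be infinite otherwise) -/
noncomputable def boxMM (X Y : MM) : ℝ≥0∞ := ⨅ ε ∈ boxSet X Y, (ε : ℝ≥0∞)

theorem boxSet_symm (X Y : MM) : boxSet X Y ⊆ boxSet Y X := by
  rintro ε ⟨φ, ψ, hφ, hψ, J, hJ, h1, h2⟩
  refine ⟨ψ, φ, hψ, hφ, J, hJ, h1, fun s hs t ht => ?_⟩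
  rw [abs_sub_comm]
  exact h2 s hs t ht

theorem boxMM_symm (X Y : MM) : boxMM X Y = boxMM Y X :=
  le_antisymm (biInf_mono (boxSet_symm Y X)) (biInf_mono (boxSet_symm X Y))

theorem boxSet_iso {X X' : MM} (h : Iso X X') (Y : MM) : boxSet X Y ⊆ boxSet X' Y := by
  classical
  rintro ε ⟨φ, ψ, hφ, hψ, J, hJ, h1, h2⟩
  obtain ⟨f, hf⟩ := h
  have hS : MeasurableSet X.μ.support := Measure.isClosed_support.measurableSet
  have hS' : MeasurableSet X'.μ.support := Measure.isClosed_support.measurableSet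
  have hSμ : X.μ X.μ.supportᶜ = 0 := Measure.support_mem_ae
  have hSμ' : X'.μ X'.μ.supportᶜ = 0 := Measure.support_mem_ae
  have hne : Nonempty X'.X := by
    by_contra h0
    rw [not_nonempty_iff] at h0
    have h3 : X'.μ univ = 1 := measure_univ
    rw [Set.univ_eq_empty_iff.2 h0, measure_empty] at h3
    exact zero_ne_one h3
  obtain ⟨x0⟩ := hne
  obtain ⟨g, hg⟩ : ∃ g : X.X → X'.X, g = fun x =>
      if h : x ∈ X.μ.support then (f ⟨x, h⟩ : X'.X) else x0 := ⟨_, rfl⟩
  have hgm : Measurable g := by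
    rw [hg]
    exact Measurable.dite (f := fun x : X.μ.support => (f x : X'.X))
      (continuous_subtype_val.measurable.comp f.continuous.measurable)
      (g := fun _ => x0) measurable_const hS
  have hgS : ∀ x (h : x ∈ X.μ.support), g x = f ⟨x, h⟩ := by
    intro x h
    rw [hg]
    exact dif_pos h
  have hgmap : Measure.map g X.μ = X'.μ := by
    ext B hB
    rw [Measure.map_apply hgm hB]
    have e1 : X.μ (g ⁻¹' B) = X.μ (g ⁻¹' B ∩ X.μ.support) := by
      refine le_antisymm ?_ (measure_mono inter_subset_left)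
      have h3 : g ⁻¹' B ⊆ (g ⁻¹' B ∩ X.μ.support) ∪ X.μ.supportᶜ := by
        intro x hx
        by_cases hx' : x ∈ X.μ.support
        · exact Or.inl ⟨hx, hx'⟩
        · exact Or.inr hx'
      refine (measure_mono h3).trans ((measure_union_le _ _).trans ?_)
      rw [hSμ, add_zero]
    have e2 : X'.μ B = X'.μ (B ∩ X'.μ.support) := by
      refine le_antisymm ?_ (measure_mono inter_subset_left)
      have h3 : B ⊆ (B ∩ X'.μ.support) ∪ X'.μ.supportᶜ := by
        intro x hx
        by_cases hx' : x ∈ X'.μ.support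
        · exact Or.inl ⟨hx, hx'⟩
        · exact Or.inr hx'
      refine (measure_mono h3).trans ((measure_union_le _ _).trans ?_)
      rw [hSμ', add_zero]
    have hBm : MeasurableSet ((Subtype.val : X'.μ.support → X'.X) ⁻¹' B) :=
      measurable_subtype_coe hB
    have e3 : X'.μ (B ∩ X'.μ.support) =
        (X'.μ.comap (Subtype.val : X'.μ.support → X'.X)) (Subtype.val ⁻¹' B) := by
      rw [comap_subtype_coe_apply hS', Subtype.image_preimage_coe, inter_comm]
    have e4 : X.μ (g ⁻¹' B ∩ X.μ.support) =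
        (X.μ.comap (Subtype.val : X.μ.support → X.X)) (f ⁻¹' (Subtype.val ⁻¹' B)) := by
      rw [comap_subtype_coe_apply hS]
      congr 1
      ext x
      constructor
      · rintro ⟨hx, hx'⟩
        refine ⟨⟨x, hx'⟩, ?_, rfl⟩
        have h3 : g x ∈ B := hx
        rw [hgS x hx'] at h3
        exact h3
      · rintro ⟨⟨y, hy⟩, hyB, rfl⟩
        refine ⟨?_, hy⟩
        show g y ∈ B
        rw [hgS y hy]
        exact hyB
    rw [e1, e2, e3, e4, ← hf, Measure.map_apply f.continuous.measurable hBm]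
  refine ⟨g ∘ φ, ψ, ⟨hgm.comp hφ.1, ?_⟩, hψ, J ∩ φ ⁻¹' X.μ.support, hJ.inter (hφ.1 hS), ?_, ?_⟩
  · rw [← Measure.map_map hgm hφ.1, hφ.2, hgmap]
  · refine h1.trans ?_
    have h3 : J ⊆ (J ∩ φ ⁻¹' X.μ.support) ∪ φ ⁻¹' X.μ.supportᶜ := by
      intro x hx
      by_cases hx' : φ x ∈ X.μ.support
      · exact Or.inl ⟨hx, hx'⟩
      · exact Or.inr hx'
    refine (measure_mono h3).trans ((measure_union_le _ _).trans ?_)
    have h4 : leb (φ ⁻¹' X.μ.supportᶜ) = 0 := by
      rw [← Measure.map_apply hφ.1 hS.compl, hφ.2, hSμ]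
    rw [h4, add_zero]
  · rintro s ⟨hs, hs'⟩ t ⟨ht, ht'⟩
    have h3 : dist ((g ∘ φ) s) ((g ∘ φ) t) = dist (φ s) (φ t) := by
      show dist (g (φ s)) (g (φ t)) = _
      rw [hgS _ hs', hgS _ ht']
      exact f.isometry.dist_eq ⟨φ s, hs'⟩ ⟨φ t, ht'⟩
    rw [h3]
    exact h2 s hs t ht

theorem boxMM_iso {X X' : MM} (h : Iso X X') (Y : MM) : boxMM X Y = boxMM X' Y :=
  le_antisymm (biInf_mono (boxSet_iso h.symm Y)) (biInf_mono (boxSet_iso h Y))

/-- the box distance on the isomorphism classes -/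
noncomputable def box : Cls → Cls → ℝ≥0∞ := Quotient.lift₂ boxMM fun X Y X' Y' hX hY => by
  rw [boxMM_iso hX, boxMM_symm, boxMM_iso hY, boxMM_symm]

/-- closed sets for the box distance: every point outside has positive distance from the set -/
def IsBoxClosed (A : Set Cls) : Prop := ∀ x, x ∉ A → ∃ ε : ℝ≥0∞, 0 < ε ∧ ∀ y ∈ A, ε ≤ box x y

/-- the set of the closed sets -/
def Cl : Type 1 := {A : Set Cls // IsBoxClosed A}

/-- the lower limit of a net: the points each ball around which meets `A i` for all large `i` -/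
def Li {ι : Type 1} [Preorder ι] (A : ι → Cl) : Set Cls :=
  {x | ∀ ε : ℝ≥0∞, 0 < ε → ∃ i₀, ∀ i, i₀ ≤ i → ∃ y ∈ (A i).1, box x y < ε}

/-- the upper limit of a net: the points each ball around which meets `A i` for cofinally many `i` -/
def Ls {ι : Type 1} [Preorder ι] (A : ι → Cl) : Set Cls :=
  {x | ∀ ε : ℝ≥0∞, 0 < ε → ∀ i₀, ∃ i, i₀ ≤ i ∧ ∃ y ∈ (A i).1, box x y < ε}

/-- Kuratowski-Painlevé convergence of the net `A` to `B` -/
def KConv {ι : Type 1} [Preorder ι] (A : ι → Cl) (B : Cl) : Prop := Ls A ⊆ B.1 ∧ B.1 ⊆ Li A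

/-- the net `A` is eventually in `O` -/
def Ev {ι : Type 1} [Preorder ι] (A : ι → Cl) (O : Set Cl) : Prop := ∃ i₀, ∀ i, i₀ ≤ i → A i ∈ O

/-- the Kuratowski topologization: a set `O` is open iff all nets which converge in the sense of
Kuratowski and Painlevé to an element of `O` are eventually in `O` -/
@[reducible] def tauK : TopologicalSpace Cl where
  IsOpen O := ∀ (ι : Type 1) [Preorder ι] [IsDirected ι (· ≤ ·)] [Nonempty ι] (A : ι → Cl) (B : Cl),
    KConv A B → B ∈ O → Ev A O
  isOpen_univ := by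
    intro ι _ _ hne A B _ _
    obtain ⟨i⟩ := hne
    exact ⟨i, fun _ _ => mem_univ _⟩
  isOpen_inter := by
    intro O O' hO hO' ι _ _ _ A B hAB hB
    obtain ⟨i, hi⟩ := hO ι A B hAB hB.1
    obtain ⟨j, hj⟩ := hO' ι A B hAB hB.2
    obtain ⟨k, hik, hjk⟩ := exists_ge_ge i j
    exact ⟨k, fun l hl => ⟨hi l (hik.trans hl), hj l (hjk.trans hl)⟩⟩
  isOpen_sUnion := by
    intro S hS ι _ _ _ A B hAB hB
    obtain ⟨O, hO, hBO⟩ := hB
    obtain ⟨i, hi⟩ := hS O hO ι A B hAB hBO
    exact ⟨i, fun l hl => ⟨O, hO, hi l hl⟩⟩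

end Run7.h371.KT
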