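import Pool.Agent.Run7.h371.KT.Defs

/-!
# The Kuratowski topologization over the box distance is not Hausdorff
-/

set_option autoImplicit false

namespace Run7.h371.KT

open MeasureTheory Set
open scoped ENNReal NNReal Topology

/-- `m` closed sets with distances at most `r` have together mass at least `c` -/
def P (m : ℕ) (r c : ℝ) (X : MM) : Prop :=
  ∃ C : Fin m → Set X.X, (∀ j, IsClosed (C j)) ∧ (∀ j, ∀ x ∈ C j, ∀ y ∈ C j, dist x y ≤ r) ∧
    ENNReal.ofReal c ≤ X.μ (⋃ j, C j)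

theorem P.mono {m m' : ℕ} {r r' c c' : ℝ} {X : MM} (h : P m r c X) (hm : m ≤ m') (hr : r ≤ r')
    (hc : c' ≤ c) : P m' r' c' X := by
  obtain ⟨C, h1, h2, h3⟩ := h
  refine ⟨fun j => if hj : (j : ℕ) < m then C ⟨j, hj⟩ else ∅, fun j => ?_, fun j => ?_, ?_⟩
  · dsimp only
    split
    · exact h1 _
    · exact isClosed_empty
  · dsimp only
    split
    · exact fun x hx y hy => (h2 _ x hx y hy).trans hr
    · exact fun x hx => absurd hx (notMem_empty x)
  · refine (ENNReal.ofReal_le_ofReal hc).trans (h3.trans (measure_mono ?_))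
    refine iUnion_subset fun j => ?_
    have h4 : C j = (fun j : Fin m' => if hj : (j : ℕ) < m then C ⟨j, hj⟩ else ∅)
        ⟨j, j.2.trans_le hm⟩ := by
      dsimp only
      rw [dif_pos j.2]
    rw [h4]
    exact subset_iUnion (fun j : Fin m' => if hj : (j : ℕ) < m then C ⟨j, hj⟩ else ∅) _

/-- the property passes to mm-spaces at small box distance -/
theorem P.transfer {X Y : MM} {m : ℕ} {r c δ : ℝ} (h : P m r c X)
    (hb : boxMM X Y < ENNReal.ofReal δ) : P m (r + δ) (c - δ) Y := by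
  obtain ⟨C, h1, h2, h3⟩ := h
  obtain ⟨ε, hε⟩ := iInf_lt_iff.1 hb
  obtain ⟨⟨φ, ψ, hφ, hψ, J, hJ, h4, h5⟩, hε⟩ := iInf_lt_iff.1 hε
  have hεδ : (ε : ℝ) < δ := by
    have h6 : ENNReal.ofReal (ε : ℝ) < ENNReal.ofReal δ := by
      rwa [ENNReal.ofReal_coe_nnreal]
    exact (ENNReal.ofReal_lt_ofReal_iff_of_nonneg ε.2).1 h6
  refine ⟨fun j => closure (ψ '' (J ∩ φ ⁻¹' C j)), fun j => isClosed_closure, fun j => ?_, ?_⟩
  · have hcl : IsClosed {p : Y.X × Y.X | dist p.1 p.2 ≤ r + δ} :=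
      isClosed_le (continuous_fst.dist continuous_snd) continuous_const
    have hsub : (ψ '' (J ∩ φ ⁻¹' C j)) ×ˢ (ψ '' (J ∩ φ ⁻¹' C j)) ⊆
        {p : Y.X × Y.X | dist p.1 p.2 ≤ r + δ} := by
      rintro ⟨_, _⟩ ⟨⟨s, ⟨hs, hs'⟩, rfl⟩, ⟨t, ⟨ht, ht'⟩, rfl⟩⟩
      show dist (ψ s) (ψ t) ≤ r + δ
      have h6 := h5 s hs t ht
      have h7 := h2 j _ hs' _ ht'
      rw [abs_le] at h6
      linarith [h6.1]
    have hsub' := closure_minimal hsub hcl
    rw [closure_prod_eq] at hsub'
    intro x hx y hy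
    exact hsub' (show (x, y) ∈ _ from ⟨hx, hy⟩)
  · obtain ⟨U, hU⟩ : ∃ U : Set I, U = φ ⁻¹' ⋃ j, C j := ⟨_, rfl⟩
    have hUm : MeasurableSet U := hU ▸ hφ.1 (MeasurableSet.iUnion fun j => (h1 j).measurableSet)
    have hμU : ENNReal.ofReal c ≤ leb U := by
      rw [hU, ← Measure.map_apply hφ.1 (MeasurableSet.iUnion fun j => (h1 j).measurableSet), hφ.2]
      exact h3
    have hsub : J ∩ U ⊆ ψ ⁻¹' ⋃ j, closure (ψ '' (J ∩ φ ⁻¹' C j)) := by
      rintro s ⟨hs, hs'⟩
      rw [hU] at hs'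
      obtain ⟨j, hj⟩ := mem_iUnion.1 hs'
      exact mem_iUnion.2 ⟨j, subset_closure ⟨s, ⟨hs, hj⟩, rfl⟩⟩
    have hle : leb (J ∩ U) ≤ Y.μ (⋃ j, closure (ψ '' (J ∩ φ ⁻¹' C j))) := by
      rw [← hψ.2, Measure.map_apply hψ.1 (MeasurableSet.iUnion fun j =>
        isClosed_closure.measurableSet)]
      exact measure_mono hsub
    refine le_trans ?_ hle
    have hsum : leb J + leb U ≤ leb (J ∩ U) + 1 := by
      rw [← measure_union_add_inter J hUm, add_comm]
      gcongr
      exact prob_le_one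
    have hc1 : ENNReal.ofReal c ≤ 1 := hμU.trans prob_le_one
    have hc1' : c ≤ 1 := by
      by_contra h0
      push Not at h0
      have h6 : (1 : ℝ≥0∞) < ENNReal.ofReal c := by
        rw [← ENNReal.ofReal_one]
        exact (ENNReal.ofReal_lt_ofReal_iff (by linarith)).2 h0
      exact absurd hc1 (not_le.2 h6)
    by_cases hε1 : (ε : ℝ) ≤ 1
    · have h6 : ENNReal.ofReal (1 - ε) + ENNReal.ofReal c ≤ leb (J ∩ U) + 1 := by
        refine le_trans (add_le_add ?_ hμU) hsum
        have e : ENNReal.ofReal (1 - (ε : ℝ)) = 1 - (ε : ℝ≥0∞) := by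
          rw [ENNReal.ofReal_sub 1 (NNReal.coe_nonneg ε), ENNReal.ofReal_one,
            ENNReal.ofReal_coe_nnreal]
        rw [e]
        exact h4
      have h7 : leb (J ∩ U) ≠ ⊤ := measure_ne_top _ _
      have h8 : ENNReal.ofReal (c - δ) + 1 ≤ leb (J ∩ U) + 1 := by
        by_cases hc0 : c - δ ≤ 0
        · rw [ENNReal.ofReal_of_nonpos hc0]
          gcongr
          exact zero_le
        · push Not at hc0
          refine le_trans ?_ h6
          rw [← ENNReal.ofReal_one, ← ENNReal.ofReal_add hc0.le zero_le_one,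
            ← ENNReal.ofReal_add (by linarith) (by have := NNReal.coe_nonneg ε; linarith)]
          exact ENNReal.ofReal_le_ofReal (by linarith)
      exact (ENNReal.add_le_add_iff_right ENNReal.one_ne_top).1 h8
    · push Not at hε1
      rw [ENNReal.ofReal_of_nonpos (by linarith)]
      exact zero_le

/-- mass can be covered by finitely many small sets -/
theorem exists_P (X : MM) {r : ℝ} (hr : 0 < r) : ∃ m, P m r (3 / 4) X := by
  have hne : Nonempty X.X := by
    by_contra h0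
    rw [not_nonempty_iff] at h0
    have h3 : X.μ univ = 1 := measure_univ
    rw [Set.univ_eq_empty_iff.2 h0, measure_empty] at h3
    exact zero_ne_one h3
  obtain ⟨u, hu⟩ := TopologicalSpace.exists_dense_seq X.X
  obtain ⟨B, hB⟩ : ∃ B : ℕ → Set X.X, B = fun j => Metric.closedBall (u j) (r / 2) := ⟨_, rfl⟩
  have hcov : (⋃ j, B j) = univ := by
    rw [eq_univ_iff_forall]
    intro x
    obtain ⟨j, hj⟩ := hu.exists_dist_lt x (half_pos hr)
    exact mem_iUnion.2 ⟨j, by rw [hB]; exact Metric.mem_closedBall.2 hj.le⟩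
  have hlim := tendsto_measure_iUnion_accumulate (μ := X.μ) (f := B)
  rw [hcov, measure_univ] at hlim
  have hlt : ENNReal.ofReal (3 / 4) < 1 := by
    rw [← ENNReal.ofReal_one]
    exact (ENNReal.ofReal_lt_ofReal_iff one_pos).2 (by norm_num)
  obtain ⟨m, hm⟩ := (hlim.eventually (lt_mem_nhds hlt)).exists
  refine ⟨m + 1, fun j => B j, fun j => ?_, fun j => ?_, ?_⟩
  · rw [hB]
    exact Metric.isClosed_closedBall
  · rw [hB]
    intro x hx y hy
    have h1 := Metric.mem_closedBall.1 hx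
    have h2 := Metric.mem_closedBall.1 hy
    calc dist x y ≤ dist x (u j) + dist y (u j) := dist_triangle_right _ _ _
      _ ≤ r := by linarith
  · refine hm.le.trans (measure_mono ?_)
    intro x hx
    obtain ⟨j, hj, hx⟩ := mem_accumulate.1 hx
    exact mem_iUnion.2 ⟨⟨j, by omega⟩, hx⟩

/-- if all small closed sets carry almost all mass, then the measure is a Dirac measure -/
theorem dirac_of_P (X : MM) (h : ∀ r : ℝ, 0 < r → ∀ c : ℝ, c < 1 → P 1 r c X) :
    ∃ x, X.μ = Measure.dirac x := by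
  have hS0 : X.μ X.μ.supportᶜ = 0 := Measure.support_mem_ae
  have hne : X.μ.support.Nonempty := by
    by_contra h0
    rw [not_nonempty_iff_eq_empty] at h0
    rw [h0, compl_empty, measure_univ] at hS0
    exact one_ne_zero hS0
  obtain ⟨x, hx⟩ := hne
  have huniq : ∀ y ∈ X.μ.support, y = x := by
    intro y hy
    by_contra hxy
    have hd : 0 < dist y x := dist_pos.2 hxy
    obtain ⟨ρ, hρ⟩ : ∃ ρ : ℝ, ρ = dist y x / 4 := ⟨_, rfl⟩
    have hρ0 : 0 < ρ := by
      rw [hρ]
      positivity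
    have hbx := (Measure.mem_support_iff_forall x).1 hx _ (Metric.ball_mem_nhds x hρ0)
    have hby := (Measure.mem_support_iff_forall y).1 hy _ (Metric.ball_mem_nhds y hρ0)
    obtain ⟨a, ha0, ha⟩ : ∃ a : ℝ, 0 < a ∧ ENNReal.ofReal a ≤ X.μ (Metric.ball x ρ) ∧
        ENNReal.ofReal a ≤ X.μ (Metric.ball y ρ) := by
      refine ⟨min (X.μ (Metric.ball x ρ)).toReal (X.μ (Metric.ball y ρ)).toReal, ?_, ?_, ?_⟩
      · exact lt_min (ENNReal.toReal_pos hbx.ne' (measure_ne_top _ _))
          (ENNReal.toReal_pos hby.ne' (measure_ne_top _ _))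
      · exact ENNReal.ofReal_le_of_le_toReal (min_le_left _ _)
      · exact ENNReal.ofReal_le_of_le_toReal (min_le_right _ _)
    obtain ⟨C, h1, h2, h3⟩ := h ρ hρ0 (1 - a / 2) (by linarith)
    have hmeet : ∀ z, ENNReal.ofReal a ≤ X.μ (Metric.ball z ρ) → ∃ w ∈ C 0, dist w z < ρ := by
      intro z hz
      by_contra h0
      push Not at h0
      have hdisj : Disjoint (⋃ j, C j) (Metric.ball z ρ) := by
        rw [Set.disjoint_left]
        intro w hw hw'
        obtain ⟨j, hj⟩ := mem_iUnion.1 hw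
        have hj0 : j = 0 := Subsingleton.elim _ _
        rw [hj0] at hj
        exact absurd (Metric.mem_ball.1 hw') (not_lt.2 (h0 w hj))
      have h4 : X.μ (⋃ j, C j) + X.μ (Metric.ball z ρ) ≤ 1 := by
        rw [← measure_union hdisj Metric.isOpen_ball.measurableSet]
        exact prob_le_one
      have h5 := (add_le_add h3 hz).trans h4
      have ha1 : a ≤ 1 := by
        by_contra h6
        push Not at h6
        have h7 : (1 : ℝ≥0∞) < ENNReal.ofReal a := by
          rw [← ENNReal.ofReal_one]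
          exact (ENNReal.ofReal_lt_ofReal_iff (by linarith)).2 h6
        exact absurd (hz.trans prob_le_one) (not_le.2 h7)
      rw [← ENNReal.ofReal_add (by linarith) ha0.le, ← ENNReal.ofReal_one,
        ENNReal.ofReal_le_ofReal_iff zero_le_one] at h5
      linarith
    obtain ⟨w, hw, hwx⟩ := hmeet x ha.1
    obtain ⟨w', hw', hwy⟩ := hmeet y ha.2
    have h6 := h2 0 w hw w' hw'
    have h7 : dist y x ≤ dist w' y + dist w w' + dist w x := by
      calc dist y x ≤ dist y w' + dist w' x := dist_triangle _ _ _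
        _ ≤ dist y w' + (dist w' w + dist w x) := by
          gcongr
          exact dist_triangle _ _ _
        _ = dist w' y + dist w w' + dist w x := by
          rw [dist_comm y w', dist_comm w' w]
          ring
    linarith
  refine ⟨x, ?_⟩
  have hx0 : X.μ {x}ᶜ = 0 := by
    refine measure_mono_null ?_ hS0
    intro y hy hy'
    exact hy (huniq y hy')
  ext s hs
  rw [Measure.dirac_apply' _ hs]
  by_cases hxs : x ∈ s
  · rw [indicator_of_mem hxs, Pi.one_apply]
    have hsub : sᶜ ⊆ {x}ᶜ := by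
      intro y hy hy'
      rw [mem_singleton_iff] at hy'
      rw [hy'] at hy
      exact hy hxs
    exact (prob_compl_eq_zero_iff hs).1 (measure_mono_null hsub hx0)
  · rw [indicator_of_notMem hxs]
    have hsub : s ⊆ {x}ᶜ := by
      intro y hy hy'
      rw [mem_singleton_iff] at hy'
      rw [hy'] at hy
      exact hxs hy
    exact measure_mono_null hsub hx0

/-! ### finite spaces -/

/-- a set with `N` elements -/
def Pt (N : ℕ) : Type := Fin N

instance (N : ℕ) : Finite (Pt N) := inferInstanceAs (Finite (Fin N))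

open Classical in
/-- the metric on `Pt N` with the only distances `0` and `a` -/
@[reducible] noncomputable def finMetric (a : ℝ) (ha : 0 < a) (N : ℕ) : MetricSpace (Pt N) where
  dist i j := if i = j then 0 else a
  dist_self i := if_pos rfl
  dist_comm i j := by
    by_cases h : i = j
    · rw [h]
    · rw [if_neg h, if_neg (Ne.symm h)]
  dist_triangle i j k := by
    by_cases h1 : i = j
    · subst h1
      rw [if_pos rfl, zero_add]
    · rw [if_neg h1]
      by_cases h2 : i = k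
      · rw [if_pos h2]
        split <;> linarith
      · rw [if_neg h2]
        split <;> linarith
  eq_of_dist_eq_zero {i j} h := by
    by_contra h1
    have h : (if i = j then (0 : ℝ) else a) = 0 := h
    rw [if_neg h1] at h
    exact ha.ne' h

/-- the map from `[0, 1)` to `Pt N` -/
noncomputable def flo (N : ℕ) (hN : 0 < N) (s : I) : Pt N :=
  (⟨⌊(N : ℝ) * (s : ℝ)⌋₊, by
    have h0 : (0 : ℝ) ≤ s := s.2.1
    have h1 : (s : ℝ) < 1 := s.2.2
    have hN' : (0 : ℝ) < N := by exact_mod_cast hN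
    rw [Nat.floor_lt (by positivity)]
    nlinarith⟩ : Fin N)

theorem measurable_flo (N : ℕ) (hN : 0 < N) : @Measurable I (Pt N) _ ⊤ (flo N hN) := by
  refine @measurable_to_countable' (Pt N) I ⊤ _ _ _ fun i => ?_
  have h : flo N hN ⁻¹' {i} = (fun s : I => ⌊(N : ℝ) * (s : ℝ)⌋₊) ⁻¹' {((show Fin N from i) : ℕ)} := by
    ext s
    simp only [mem_preimage, mem_singleton_iff]
    exact Fin.ext_iff
  rw [h]
  exact (measurable_const.mul measurable_subtype_coe).nat_floor (measurableSet_singleton _)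

/-- the mm-space with `N` points of equal mass at mutual distances `a` -/
noncomputable def pts (a : ℝ) (ha : 0 < a) (N : ℕ) (hN : 0 < N) : MM :=
  letI := finMetric a ha N
  letI : MeasurableSpace (Pt N) := ⊤
  { X := Pt N
    met := finMetric a ha N
    complete := by
      have : CompactSpace (Pt N) := Finite.compactSpace
      exact complete_of_compact
    separable := inferInstance
    meas := ⊤
    borel := ⟨borel_eq_top_of_countable.symm⟩
    μ := Measure.map (flo N hN) leb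
    prob := Measure.isProbabilityMeasure_map (measurable_flo N hN).aemeasurable }

open Classical in
theorem pts_dist (a : ℝ) (ha : 0 < a) (N : ℕ) (hN : 0 < N) (x y : (pts a ha N hN).X) :
    dist x y = if x = y then 0 else a := rfl

theorem pts_param (a : ℝ) (ha : 0 < a) (N : ℕ) (hN : 0 < N) : IsParam (pts a ha N hN) (flo N hN) :=
  ⟨measurable_flo N hN, rfl⟩

theorem pts_mass (a : ℝ) (ha : 0 < a) (N : ℕ) (hN : 0 < N) (i : Pt N) :
    (pts a ha N hN).μ {i} ≤ ENNReal.ofReal (1 / N) := by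
  have h0 : (pts a ha N hN).μ {i} = leb (flo N hN ⁻¹' {i}) :=
    @Measure.map_apply I (Pt N) _ ⊤ leb (flo N hN) (measurable_flo N hN) {i} trivial
  have hN' : (0 : ℝ) < N := by exact_mod_cast hN
  rw [h0, leb_apply]
  have h1 : (Subtype.val : I → ℝ) '' (flo N hN ⁻¹' {i}) ⊆ Set.Ico ((((show Fin N from i) : ℕ) : ℝ) / N)
      (((((show Fin N from i) : ℕ) : ℝ) + 1) / N) := by
    rintro _ ⟨s, hs, rfl⟩
    have h2 : ⌊(N : ℝ) * (s : ℝ)⌋₊ = ((show Fin N from i) : ℕ) :=
      Fin.ext_iff.1 (mem_singleton_iff.1 hs)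
    have h3 : (0 : ℝ) ≤ (N : ℝ) * s := mul_nonneg hN'.le s.2.1
    have h4 := Nat.floor_le h3
    have h5 := Nat.lt_floor_add_one ((N : ℝ) * (s : ℝ))
    rw [h2] at h4 h5
    constructor
    · rw [div_le_iff₀ hN']
      linarith
    · rw [lt_div_iff₀ hN']
      linarith
  refine (measure_mono h1).trans ?_
  rw [Real.volume_Ico]
  refine ENNReal.ofReal_le_ofReal (le_of_eq ?_)
  field_simp
  ring

/-- finite spaces have small diameter -/
theorem pts_P (a : ℝ) (ha : 0 < a) (N : ℕ) (hN : 0 < N) {r c : ℝ} (hr : a ≤ r) (hc : c ≤ 1) :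
    P 1 r c (pts a ha N hN) := by
  refine ⟨fun _ => univ, fun _ => isClosed_univ, fun _ x _ y _ => ?_, ?_⟩
  · rw [pts_dist]
    split <;> linarith
  · rw [iUnion_const, measure_univ, ← ENNReal.ofReal_one]
    exact ENNReal.ofReal_le_ofReal hc

/-- finite spaces are not covered by few small sets -/
theorem pts_notP (a : ℝ) (ha : 0 < a) (k : ℕ) {r c : ℝ} (hr : r < a) (hc : 1 / 2 < c) :
    ¬ P k r c (pts a ha (2 * k + 2) (by omega)) := by
  rintro ⟨C, -, h2, h3⟩
  have hsub : ∀ j, (pts a ha (2 * k + 2) (by omega)).μ (C j) ≤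
      ENNReal.ofReal (1 / ((2 * k + 2 : ℕ) : ℝ)) := by
    intro j
    rcases (C j).eq_empty_or_nonempty with h0 | ⟨x, hx⟩
    · rw [h0, measure_empty]
      exact zero_le
    · have h4 : C j ⊆ {x} := by
        intro y hy
        by_contra hyx
        have h5 := h2 j y hy x hx
        rw [pts_dist, if_neg (fun h => hyx (mem_singleton_iff.2 h))] at h5
        linarith
      exact (measure_mono h4).trans (pts_mass a ha _ _ x)
  have h5 : (pts a ha (2 * k + 2) (by omega)).μ (⋃ j, C j) ≤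
      ∑ _j : Fin k, ENNReal.ofReal (1 / ((2 * k + 2 : ℕ) : ℝ)) :=
    (measure_iUnion_fintype_le _ _).trans (Finset.sum_le_sum fun j _ => hsub j)
  have h6 := h3.trans h5
  rw [Finset.sum_const, Finset.card_univ, Fintype.card_fin, nsmul_eq_mul,
    ← ENNReal.ofReal_natCast, ← ENNReal.ofReal_mul (Nat.cast_nonneg k),
    ENNReal.ofReal_le_ofReal_iff (by positivity)] at h6
  have h7 : (k : ℝ) * (1 / ((2 * k + 2 : ℕ) : ℝ)) < 1 / 2 := by
    push_cast
    rw [mul_one_div, div_lt_div_iff₀ (by positivity) (by norm_num)]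
    linarith
  linarith

/-! ### the closed sets -/

/-- the classes of the mm-spaces which have a single point as support -/
def E0 : Set Cls := {z | ∃ X : MM, (Quotient.mk _ X : Cls) = z ∧
  ∀ r : ℝ, 0 < r → ∀ c : ℝ, c < 1 → P 1 r c X}

/-- the classes of the mm-spaces of diameter at most `a` in which `k` sets of diameter less than `a`
have mass at most `1 / 2` -/
def E (a : ℝ) (k : ℕ) : Set Cls := {z | ∃ X : MM, (Quotient.mk _ X : Cls) = z ∧
  (∀ r : ℝ, a < r → ∀ c : ℝ, c < 1 → P 1 r c X) ∧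
  ∀ r : ℝ, r < a → ∀ c : ℝ, 1 / 2 < c → ¬ P k r c X}

theorem box_mk (X Y : MM) : box (Quotient.mk _ X) (Quotient.mk _ Y) = boxMM X Y := rfl

theorem E0_closed : IsBoxClosed E0 := by
  intro z hz
  obtain ⟨X, rfl⟩ := Quotient.exists_rep z
  obtain ⟨r, hr, c, hc, h⟩ : ∃ r : ℝ, 0 < r ∧ ∃ c : ℝ, c < 1 ∧ ¬ P 1 r c X := by
    by_contra h0
    push Not at h0
    exact hz ⟨X, rfl, h0⟩
  refine ⟨ENNReal.ofReal (min r (1 - c) / 2), ENNReal.ofReal_pos.2
    (half_pos (lt_min hr (by linarith))), ?_⟩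
  rintro _ ⟨Y, rfl, hY⟩
  by_contra h1
  rw [not_le, box_mk, boxMM_symm] at h1
  have h2 := min_le_left r (1 - c)
  have h3 := min_le_right r (1 - c)
  have h4 : 0 < min r (1 - c) := lt_min hr (by linarith)
  have h5 := (hY (r - min r (1 - c) / 2) (by linarith) (c + min r (1 - c) / 2)
    (by linarith)).transfer h1
  exact h (h5.mono le_rfl (by linarith) (by linarith))

theorem E_closed (a : ℝ) (k : ℕ) : IsBoxClosed (E a k) := by
  intro z hz
  obtain ⟨X, rfl⟩ := Quotient.exists_rep z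
  by_cases h0 : ∀ r : ℝ, a < r → ∀ c : ℝ, c < 1 → P 1 r c X
  · obtain ⟨r, hr, c, hc, h⟩ : ∃ r : ℝ, r < a ∧ ∃ c : ℝ, 1 / 2 < c ∧ P k r c X := by
      by_contra h1
      push Not at h1
      exact hz ⟨X, rfl, h0, h1⟩
    have h2 := min_le_left (a - r) (c - 1 / 2)
    have h3 := min_le_right (a - r) (c - 1 / 2)
    have h4 : 0 < min (a - r) (c - 1 / 2) := lt_min (by linarith) (by linarith)
    refine ⟨ENNReal.ofReal (min (a - r) (c - 1 / 2) / 2), ENNReal.ofReal_pos.2 (half_pos h4), ?_⟩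
    rintro _ ⟨Y, rfl, -, hY⟩
    by_contra h1
    rw [not_le, box_mk] at h1
    exact hY _ (by linarith) _ (by linarith) (h.transfer h1)
  · push Not at h0
    obtain ⟨r, hr, c, hc, h⟩ := h0
    have h2 := min_le_left (r - a) (1 - c)
    have h3 := min_le_right (r - a) (1 - c)
    have h4 : 0 < min (r - a) (1 - c) := lt_min (by linarith) (by linarith)
    refine ⟨ENNReal.ofReal (min (r - a) (1 - c) / 2), ENNReal.ofReal_pos.2 (half_pos h4), ?_⟩
    rintro _ ⟨Y, rfl, hY, -⟩
    by_contra h1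
    rw [not_le, box_mk, boxMM_symm] at h1
    have h5 := (hY (r - min (r - a) (1 - c) / 2) (by linarith) (c + min (r - a) (1 - c) / 2)
      (by linarith)).transfer h1
    exact h (h5.mono le_rfl (by linarith) (by linarith))

theorem empty_closed : IsBoxClosed ∅ := fun _ _ => ⟨1, one_pos, fun _ hy => absurd hy (notMem_empty _)⟩

/-- the closed sets `E a k` converge to the empty set for `k → ∞` -/
theorem conv_empty {a : ℝ} (ha : 0 < a) :
    KConv (fun k : ULift.{1} ℕ => (⟨E a k.down, E_closed a k.down⟩ : Cl)) ⟨∅, empty_closed⟩ := by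
  refine ⟨?_, fun x hx => absurd hx (notMem_empty x)⟩
  intro z hz
  exfalso
  obtain ⟨X, rfl⟩ := Quotient.exists_rep z
  obtain ⟨m, hm⟩ := exists_P X (r := a / 4) (by linarith)
  have h4 : 0 < min (a / 4) (1 / 8 : ℝ) := lt_min (by linarith) (by norm_num)
  have h2 := min_le_left (a / 4) (1 / 8 : ℝ)
  have h3 := min_le_right (a / 4) (1 / 8 : ℝ)
  obtain ⟨⟨k⟩, hk, _, ⟨Y, rfl, -, hY⟩, hlt⟩ := hz (ENNReal.ofReal (min (a / 4) (1 / 8)))
    (ENNReal.ofReal_pos.2 h4) ⟨m⟩
  have hk : m ≤ k := hk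
  rw [box_mk] at hlt
  have h5 := hm.transfer hlt
  refine hY (a / 4 + min (a / 4) (1 / 8)) (by linarith) (3 / 4 - min (a / 4) (1 / 8)) (by linarith) ?_
  exact h5.mono hk le_rfl le_rfl

/-- the distance of a Dirac measure and a finite space -/
theorem box_dirac {X : MM} {x : X.X} (hX : X.μ = Measure.dirac x) (a : ℝ) (ha : 0 < a) (N : ℕ)
    (hN : 0 < N) : boxMM X (pts a ha N hN) ≤ ENNReal.ofReal a := by
  have h : (⟨a, ha.le⟩ : ℝ≥0) ∈ boxSet X (pts a ha N hN) := by
    refine ⟨fun _ => x, flo N hN, ⟨measurable_const, ?_⟩, pts_param a ha N hN, univ,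
      MeasurableSet.univ, ?_, ?_⟩
    · rw [Measure.map_const, measure_univ, one_smul, hX]
    · rw [measure_univ]
      exact tsub_le_self
    · intro s _ t _
      rw [dist_self, zero_sub, abs_neg, abs_of_nonneg dist_nonneg, pts_dist]
      show _ ≤ a
      split <;> linarith
  refine (biInf_le (fun ε : ℝ≥0 => (ε : ℝ≥0∞)) h).trans (le_of_eq ?_)
  rw [← ENNReal.ofReal_coe_nnreal]
  rfl

/-- the closed sets `E a k` converge to `E0` for `a → 0` and arbitrary `k` -/
theorem conv_E0 (f : ℕ → ℝ) (hf : ∀ n, 0 < f n) (hf0 : ∀ n, f n ≤ 1 / ((n : ℝ) + 1)) (k : ℕ → ℕ) :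
    KConv (fun n : ULift.{1} ℕ => (⟨E (f n.down) (k n.down), E_closed _ _⟩ : Cl))
      ⟨E0, E0_closed⟩ := by
  constructor
  · intro z hz
    obtain ⟨X, rfl⟩ := Quotient.exists_rep z
    refine ⟨X, rfl, fun r hr c hc => ?_⟩
    have h4 : 0 < min (r / 2) ((1 - c) / 2) := lt_min (by linarith) (by linarith)
    have h2 := min_le_left (r / 2) ((1 - c) / 2)
    have h3 := min_le_right (r / 2) ((1 - c) / 2)
    obtain ⟨n0, hn0⟩ := exists_nat_one_div_lt (half_pos hr)
    obtain ⟨⟨n⟩, hn, _, ⟨Y, rfl, hY, -⟩, hlt⟩ := hz (ENNReal.ofReal (min (r / 2) ((1 - c) / 2)))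
      (ENNReal.ofReal_pos.2 h4) ⟨n0⟩
    have hn : n0 ≤ n := hn
    have h5 : f n < r / 2 := by
      refine (hf0 n).trans_lt (lt_of_le_of_lt ?_ hn0)
      exact Nat.one_div_le_one_div hn
    rw [box_mk, boxMM_symm] at hlt
    have h6 := (hY (r / 2) h5 (c + min (r / 2) ((1 - c) / 2)) (by linarith)).transfer hlt
    exact h6.mono le_rfl (by linarith) (by linarith)
  · rintro _ ⟨X, rfl, hX⟩ ε hε
    obtain ⟨x, hx⟩ := dirac_of_P X hX
    obtain ⟨δ, hδ0, hδ⟩ : ∃ δ : ℝ, 0 < δ ∧ ENNReal.ofReal δ ≤ ε := by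
      by_cases h : ε = ⊤
      · exact ⟨1, one_pos, by rw [h]; exact le_top⟩
      · exact ⟨ε.toReal, ENNReal.toReal_pos hε.ne' h, by rw [ENNReal.ofReal_toReal h]⟩
    obtain ⟨n0, hn0⟩ := exists_nat_one_div_lt hδ0
    refine ⟨⟨n0⟩, ?_⟩
    rintro ⟨n⟩ hn
    have hn : n0 ≤ n := hn
    have h5 : f n < δ := by
      refine (hf0 n).trans_lt (lt_of_le_of_lt ?_ hn0)
      exact Nat.one_div_le_one_div hn
    refine ⟨Quotient.mk _ (pts (f n) (hf n) (2 * k n + 2) (by omega)), ⟨_, rfl, ?_, ?_⟩, ?_⟩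
    · intro r hr c hc
      exact pts_P _ _ _ _ hr.le hc.le
    · intro r hr c hc
      exact pts_notP _ _ _ hr hc
    · rw [box_mk]
      refine (box_dirac hx _ _ _ _).trans_lt (lt_of_lt_of_le ?_ hδ)
      exact (ENNReal.ofReal_lt_ofReal_iff hδ0).2 h5

theorem E0_ne : E0 ≠ ∅ := by
  intro h
  have h1 : (Quotient.mk _ (pts 1 one_pos 1 one_pos) : Cls) ∈ E0 := by
    refine ⟨_, rfl, fun r hr c hc => ⟨fun _ => univ, fun _ => isClosed_univ, fun _ x _ y _ => ?_, ?_⟩⟩
    · have hxy : x = y := Subsingleton.elim (α := Fin 1) x y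
      rw [hxy, dist_self]
      exact hr.le
    · rw [iUnion_const, measure_univ, ← ENNReal.ofReal_one]
      exact ENNReal.ofReal_le_ofReal hc.le
  rw [h] at h1
  exact notMem_empty _ h1

/-- the empty set and `E0` have no disjoint neighbourhoods -/
theorem not_sep (U V : Set Cl) (hU : IsOpen[tauK] U) (hV : IsOpen[tauK] V)
    (hU0 : (⟨∅, empty_closed⟩ : Cl) ∈ U) (hV0 : (⟨E0, E0_closed⟩ : Cl) ∈ V) : (U ∩ V).Nonempty := by
  have h1 : ∀ a : ℝ, 0 < a → ∃ K : ℕ, ∀ k, K ≤ k → (⟨E a k, E_closed a k⟩ : Cl) ∈ U := by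
    intro a ha
    obtain ⟨⟨K⟩, hK⟩ := hU _ _ _ (conv_empty ha) hU0
    exact ⟨K, fun k hk => hK ⟨k⟩ hk⟩
  have h2 : ∃ n : ℕ, ∀ k, (⟨E (1 / ((n : ℝ) + 1)) k, E_closed _ k⟩ : Cl) ∈ V := by
    by_contra h0
    push Not at h0
    choose k hk using h0
    obtain ⟨⟨n⟩, hn⟩ := hV _ _ _ (conv_E0 (fun n => 1 / ((n : ℝ) + 1)) (fun n => by positivity)
      (fun n => le_rfl) k) hV0
    exact hk n (hn ⟨n⟩ le_rfl)
  obtain ⟨n, hn⟩ := h2
  obtain ⟨K, hK⟩ := h1 (1 / ((n : ℝ) + 1)) (by positivity)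
  exact ⟨_, hK K le_rfl, hn K⟩

end Run7.h371.KT
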